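import Pool.Agent.H849.PAD.CovDefs

/-!
# Coverings branched along ample divisors and `(φ, N)`-modules
-/

set_option autoImplicit false

namespace Pool.Agent.H849.PAD

universe u v w

open Module Pool.Agent.Y143 Pool.Agent.Y143.Par Pool.Agent.H849.CC
open scoped TensorProduct

section lin

variable {Ω : Type u} [Field Ω] [CharZero Ω] {V : Type v} {V' : Type w} [AddCommGroup V]
  [Module Ω V] [AddCommGroup V'] [Module Ω V'] {Φ N : Module.End Ω V} {Φ' N' : Module.End Ω V'} {q : ℕ} {i : ℤ}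

omit [CharZero Ω] in
lemma pow_comm_of {e : V' →ₗ[Ω] V} (hN : ∀ x, e (N' x) = N (e x)) (k : ℕ) (x : V') :
    e ((N' ^ k) x) = (N ^ k) (e x) := by
  induction k with
  | zero => rfl
  | succ k ih => rw [pow_succ', Module.End.mul_apply, pow_succ', Module.End.mul_apply, hN, ih]

/-- Transport of purity along an embedding. -/
theorem pureOn_iff {S : Submodule Ω V} (e : V' →ₗ[Ω] V) (he : Function.Injective e)
    (hS : LinearMap.range e = S) (hΦ : ∀ x, e (Φ' x) = Φ (e x)) (hN : ∀ x, e (N' x) = N (e x)) :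
    PureOn q i Φ N S ↔ IsMWPure q i Φ' N' := by
  have hpow := pow_comm_of hN
  constructor
  · rintro ⟨M, hM, hMΦ, hW⟩
    refine ⟨fun a => (M a).comap e, ⟨fun a b hab => Submodule.comap_mono (hM.mono hab), ?_, ?_,
      ?_, ?_, ?_⟩, ?_, ?_⟩
    · obtain ⟨a, ha⟩ := hM.bot
      refine ⟨a, ?_⟩
      rw [ha, eq_bot_iff]
      intro x hx
      rw [Submodule.mem_comap, Submodule.mem_bot] at hx
      rw [Submodule.mem_bot]
      exact he (by rw [hx, map_zero])
    · obtain ⟨a, ha⟩ := hM.top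
      refine ⟨a, ?_⟩
      rw [eq_top_iff]
      intro x _
      rw [Submodule.mem_comap, ha, ← hS]
      exact ⟨x, rfl⟩
    · intro a x hx
      rw [Submodule.mem_comap] at hx ⊢
      rw [hN]
      exact hM.map a _ hx
    · intro a x hx hx'
      rw [Submodule.mem_comap] at hx hx' ⊢
      rw [hpow] at hx'
      exact hM.inj a _ hx hx'
    · intro a y hy
      rw [Submodule.mem_comap] at hy
      obtain ⟨x, hx, hxy⟩ := hM.surj a _ hy
      have h1 := hM.le a hx
      rw [← hS] at h1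
      obtain ⟨x, rfl⟩ := h1
      refine ⟨x, hx, ?_⟩
      rw [Submodule.mem_comap, map_sub, hpow]
      exact hxy
    · intro a x hx
      rw [Submodule.mem_comap] at hx ⊢
      rw [hΦ]
      exact hMΦ a _ hx
    · intro a α x hx hx' hα
      rw [Submodule.mem_comap, map_sub, map_smul, hΦ] at hα
      exact hW a α _ hx hx' hα
  · rintro ⟨M, hM, hMΦ, hW⟩
    refine ⟨fun a => (M a).map e, ⟨fun a b hab => Submodule.map_mono (hM.mono hab), ?_, ?_, ?_,
      ?_, ?_, ?_⟩, ?_, ?_⟩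
    · obtain ⟨a, ha⟩ := hM.bot
      exact ⟨a, by rw [ha, Submodule.map_bot]⟩
    · obtain ⟨a, ha⟩ := hM.top
      exact ⟨a, by rw [ha, Submodule.map_top, hS]⟩
    · intro a
      rw [← hS]
      exact LinearMap.map_le_range
    · rintro a _ ⟨x, hx, rfl⟩
      exact ⟨_, hM.map a x hx, hN x⟩
    · rintro a _ ⟨x, hx, rfl⟩ ⟨y, hy, hyx⟩
      rw [← hpow] at hyx
      refine ⟨x, hM.inj a x hx ?_, rfl⟩
      rw [← he hyx]
      exact hy
    · rintro a _ ⟨y, hy, rfl⟩
      obtain ⟨x, hx, hxy⟩ := hM.surj a y hy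
      exact ⟨e x, ⟨x, hx, rfl⟩, _, hxy, by rw [map_sub, hpow]⟩
    · rintro a _ ⟨x, hx, rfl⟩
      exact ⟨_, hMΦ a x hx, hΦ x⟩
    · rintro a α _ ⟨x, hx, rfl⟩ hx' ⟨y, hy, hyx⟩
      refine hW a α x hx (fun h => hx' ⟨x, h, rfl⟩) ?_
      have h1 : y = Φ' x - α • x := he (by rw [hyx, map_sub, map_smul, hΦ])
      rw [← h1]
      exact hy

end lin

section phi

variable {K₀ : Type u} [Field K₀] [CharZero K₀] {σ : K₀ →+* K₀} {p : ℕ} {Ω : Type u} [Field Ω]
  [CharZero Ω] [Algebra K₀ Ω]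

/-- mw purity over `K₀` and over `Ω`. -/
theorem isPure_iff (hp : p ≠ 0) (E : PhiNModule.{u, u} K₀ σ p) (f : ℕ) (hσ : ∀ a, σ^[f] a = a)
    (m : ℤ) : E.IsPure Ω f hσ m ↔
      IsMWPure (p ^ f) m ((E.frob f hσ).baseChange Ω) (E.N.baseChange Ω) := by
  refine ⟨?_, E.isPure_of_isMWPure hp Ω f hσ m⟩
  rintro ⟨M, hM, hφ, hW⟩
  refine ⟨fun a => (M a).baseChange Ω, monBaseChange Ω hM, fun a => ?_, hW⟩
  have h1 : ∀ x ∈ M a, E.frob f hσ x ∈ M a := by
    have h2 : ∀ (k : ℕ) (x : E.D), x ∈ M a → E.φ^[k] x ∈ M a := by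
      intro k
      induction k with
      | zero => intro x hx; exact hx
      | succ k ih =>
        intro x hx
        rw [Function.iterate_succ_apply']
        exact hφ a _ (ih x hx)
    exact fun x hx => h2 f x hx
  apply baseChange_induction
  · rw [map_zero]; exact Submodule.zero_mem _
  · intro b s hs
    rw [LinearMap.baseChange_tmul]
    exact Submodule.tmul_mem_baseChange_of_mem _ (h1 s hs)
  · intro x y hx hy
    rw [map_add]
    exact Submodule.add_mem _ hx hy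

variable {V : Type v} [AddCommGroup V] [Module Ω V] {Φ N : Module.End Ω V} {S : Submodule Ω V}

theorem isPure_iff_of_form (hp : p ≠ 0) {E : PhiNModule.{u, u} K₀ σ p} {f : ℕ}
    {hσ : ∀ a, σ^[f] a = a} (h : IsFormOf E f hσ Φ N S) (m : ℤ) :
    E.IsPure Ω f hσ m ↔ PureOn (p ^ f) m Φ N S := by
  obtain ⟨e, he, hS, hΦ, hN⟩ := h
  rw [isPure_iff hp, pureOn_iff e he hS hΦ hN]

end phi

section cov

variable {Ω : Type u} [Field Ω] [CharZero Ω] {q : ℕ}

/-- The new part is mw pure. -/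
theorem new_pure {n : ℕ} {H : Type v} [AddCommGroup H] [Module Ω H] {F N : Module.End Ω H}
    (h : IsNewPart q n F N) : IsMWPure q n F N := by
  obtain ⟨Γ, X', G, _, _, A, ⟨hA, hG⟩, e, he, hS, hF, hN⟩ := h
  exact (pureOn_iff e he hS hF hN).1 (GroupAction.moving_pure hA hG)

theorem isMWPure_iff_top {V : Type v} [AddCommGroup V] [Module Ω V] {Φ N : Module.End Ω V} {i : ℤ} :
    PureOn q i Φ N ⊤ ↔ IsMWPure q i Φ N :=
  pureOn_iff LinearMap.id Function.injective_id LinearMap.range_id (fun _ => rfl) fun _ => rfl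

end cov

end Pool.Agent.H849.PAD
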