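import Pool.Agent.H849.CC.Core
import Pool.Graph.R_pool_sql_team_seeded_1acbe0a2.Y143.Par.PhiN

/-!
# Coverings branched along ample divisors and `(φ, N)`-modules: definitions
-/

set_option autoImplicit false

namespace Pool.Agent.H849.PAD

universe u v w

open Module Pool.Agent.Y143 Pool.Agent.Y143.Par Pool.Agent.H849.CC
open scoped TensorProduct

section lin

variable {Ω : Type u} [Field Ω] {H : Type w} [AddCommGroup H] [Module Ω H] {V : Type v}
  [AddCommGroup V] [Module Ω V]

/-- The vector space `H` with the operators `F`, `N` is isomorphic to the subspace `S` of `V` with the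
operators `Φ`, `M`. -/
def IsCopyOf (F N : Module.End Ω H) (Φ M : Module.End Ω V) (S : Submodule Ω V) : Prop :=
  ∃ e : H →ₗ[Ω] V, Function.Injective e ∧ LinearMap.range e = S ∧ (∀ x, e (F x) = Φ (e x)) ∧
    ∀ x, e (N x) = M (e x)

end lin

variable {Ω : Type u} [Field Ω] [CharZero Ω]

/-- The finite group `G` acts on the projective strictly semistable scheme `X'` of relative dimension
`n` (on the crystalline cohomology of the strata of the special fibre and on the Hyodo-Kato
cohomology), trivially on the cohomology of the strata in the degrees less than the dimension.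
By the weak Lefschetz theorem this is true if `G` is generated by automorphisms each of which fixes
pointwise an ample divisor which is transversal to the strata, for example for the coverings
`w ^ m = f` of arbitrary projective strictly semistable schemes `X = X' / G`, branched along ample
divisors which are transversal to the strata. -/
def IsAmpleAction {Γ : Type} {n q : ℕ} {X' : SemistableModel.{u, v} Ω Γ n q} {G : Type} [Group G]
    (A : GroupAction X'.generic G) : Prop :=
  A.IsAction ∧ A.TrivialBelowMiddle n

/-- `H`, with the Frobenius `F` and the monodromy operator `N`, is the new part of the Hyodo-Kato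
cohomology in the degree `n` of a covering `X'` of relative dimension `n`: the complement of
the invariants of `G`. -/
def IsNewPart (q n : ℕ) {H : Type v} [AddCommGroup H] [Module Ω H] (F N : Module.End Ω H) : Prop :=
  ∃ (Γ : Type) (X' : SemistableModel.{u, v} Ω Γ n q) (G : Type) (_ : Group G) (_ : Fintype G)
    (A : GroupAction X'.generic G),
    IsAmpleAction A ∧ IsCopyOf F N (X'.actV n X'.frob) (X'.N n) (A.complement n)

/-- The extension of scalars `Ω ⊗ D` of the `(φ, N)`-module is isomorphic to the subspace `S` of `V`,
where `φ ^ f` corresponds to `Φ` and `N` to `M`. -/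
def IsFormOf {K₀ : Type u} [Field K₀] {σ : K₀ →+* K₀} {p : ℕ} (E : PhiNModule.{u, u} K₀ σ p) (f : ℕ)
    (hσ : ∀ a, σ^[f] a = a) [Algebra K₀ Ω] {V : Type v} [AddCommGroup V]
    [Module Ω V] (Φ M : Module.End Ω V) (S : Submodule Ω V) : Prop :=
  IsCopyOf ((E.frob f hσ).baseChange Ω) (E.N.baseChange Ω) Φ M S

end Pool.Agent.H849.PAD
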