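import Pool.Agent.H849.SEC.PolDefs
import Pool.Agent.H849.SEC.Defs

/-!
# Ample sections and ample coverings of polarised schemes: definitions
-/

set_option autoImplicit false

namespace Pool.Agent.H849.PAD

universe u v

open Module Pool.Agent.Y143 Pool.Agent.H849.SEC

/-- An ample section or an ample covering of a polarised scheme, and a degree: `X` is (the special
fibre of) a projective strictly semistable scheme of relative dimension `n + c` (`Γ` consists of the
Frobenius and its transpose, for example), `Z → X` is an ample map, `Z` of relative dimension `n`, and
the cohomology of the strata of `X` satisfies the Hodge-Riemann relations up to the degree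
`min (degree, 2 n - degree)`. -/
structure PolarisedSection (Ω : Type u) [Field Ω] [CharZero Ω] (q : ℕ) where
  Γ : Type
  n : ℕ
  c : ℕ
  X : SpecialFibre.{u, v} Ω Γ (n + c) q
  Z : SemistableModel.{u, v} Ω Γ n q
  degree : ℕ
  hardLefschetz : X.toStrataData.HasHardLefschetz (n + c)
  ample : HasAmpleMap n c X.toStrataData Z.toStrataData
  polarised : IsPolarised X.toStrataData (n + c) (min (degree : ℤ) (2 * n - degree))

namespace PolarisedSection

variable {Ω : Type u} [Field Ω] [CharZero Ω] {q : ℕ} (P : PolarisedSection.{u, v} Ω q)

/-- The cohomology group of the geometric generic fibre of `Z`, in the given degree. -/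
abbrev H : Type v := P.Z.V P.degree

/-- The Frobenius on the cohomology group. -/
def frob : Module.End Ω P.H := P.Z.actV P.degree P.Z.frob

/-- The monodromy operator on the cohomology group. -/
def N : Module.End Ω P.H := P.Z.N P.degree

end PolarisedSection

end Pool.Agent.H849.PAD
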