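import Pool.Agent.H849.MX.Defs

/-!
# Zero loci of ample vector bundles in polarised schemes: definitions
-/

set_option autoImplicit false

namespace Pool.Agent.H849.PAD

universe u v

open Module Pool.Agent.Y143 Pool.Agent.H849.SEC Pool.Agent.H849.MX

/-- The zero locus of a section of an ample vector bundle `E` of rank `c` (for example a complete
intersection of different ample divisors) in a polarised scheme, or an ample covering of it, and a
degree: `X` is (the special fibre of) a projective strictly semistable scheme of relative dimension
`n + c` (`Γ` consists of the Frobenius and its transpose, for example), `T` is the cup product with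
`c_c(E)`, `Z → X` is a map with `f_* 1 = t c_c(E)`, `Z` of relative dimension `n`, and the cohomology of
the strata of `X` satisfies the mixed Hodge-Riemann relations up to the degree
`min (degree, 2 n - degree)`. -/
structure ZeroLocus (Ω : Type u) [Field Ω] [CharZero Ω] (q : ℕ) where
  Γ : Type
  n : ℕ
  c : ℕ
  X : SpecialFibre.{u, v} Ω Γ (n + c) q
  T : ∀ a, Module.End Ω (X.H a)
  Z : SemistableModel.{u, v} Ω Γ n q
  degree : ℕ
  lefschetz : IsLefschetzClass n c X.toStrataData T
  map : HasSectionMap n X.toStrataData Z.toStrataData T
  polarised : IsMixedPolarised X.toStrataData T n (min (degree : ℤ) (2 * n - degree))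

namespace ZeroLocus

variable {Ω : Type u} [Field Ω] [CharZero Ω] {q : ℕ} (P : ZeroLocus.{u, v} Ω q)

/-- The cohomology group of the geometric generic fibre of `Z`, in the given degree. -/
abbrev H : Type v := P.Z.V P.degree

/-- The Frobenius on the cohomology group. -/
def frob : Module.End Ω P.H := P.Z.actV P.degree P.Z.frob

/-- The monodromy operator on the cohomology group. -/
def N : Module.End Ω P.H := P.Z.N P.degree

end ZeroLocus

end Pool.Agent.H849.PAD
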