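import Pool.Graph.R_pool_sql_team_seeded_63374d34.N184.WM.Descent

/-!
# Descent of mw purity to direct summands, for the Weil group
-/

set_option autoImplicit false

namespace Pool.Agent.H849.PAD

universe u v

open Module Submodule Polynomial Pool.Agent.Y143 Pool.Agent.X302.MW Pool.Agent.N184.WM

variable {Ω : Type u} [Field Ω] [CharZero Ω] {Γ : Type} {n q : ℕ}

/-- mw purity passes to direct summands, for all the elements of the Weil group. -/
theorem wm_summand [IsAlgClosed Ω] (Y : SemistableModel.{u, v} Ω Γ n q)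
    (m p f : ℕ) (hq : q = p ^ f) (hf : 0 < f) (hpure : IsMWPure q m (Y.actV m Y.frob) (Y.N m))
    (D' : WeilModule.{u, v} Ω) (hD : D'.IsTwistedBy p) (ι : D'.V →ₗ[Ω] Y.V m)
    (π : Y.V m →ₗ[Ω] D'.V) (D : IsSummand D' Y m f ι π) (s : ℤ) (g : D'.G) :
    D'.WeightMonodromyAt m p s g := by
  intro M' hM'
  have hq0 := Y.q_ne
  have hp0 : p ≠ 0 := by
    rintro rfl
    apply hq0
    rw [hq, zero_pow hf.ne']
  have hpΩ : (p : Ω) ≠ 0 := Nat.cast_ne_zero.2 hp0
  have hpR : (0 : ℝ) < p := Nat.cast_pos.2 (Nat.pos_of_ne_zero hp0)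
  obtain ⟨M, hM, hMs, hMw⟩ := hpure
  have hstab : ∀ (g : D'.G) (s : ℤ) x, x ∈ M' s → D'.op g x ∈ M' s := by
    intro g s x hx
    exact IsMonodromyFiltrationOn.functorial hM'.on hM'.on (D'.op g) (fun _ _ => trivial)
      (c := (p : Ω) ^ D'.val g) (zpow_ne_zero _ hpΩ) (fun x _ => hD.twist g x) s hx
  have hι : ∀ s x, x ∈ M' s → ι x ∈ M s := by
    intro s x hx
    exact IsMonodromyFiltrationOn.functorial hM'.on hM.on ι (fun _ _ => trivial)
      (c := 1) one_ne_zero (fun x _ => by rw [one_smul, D.pull_N]) s hx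
  have hπ : ∀ s x, x ∈ M s → π x ∈ M' s := by
    intro s x hx
    exact IsMonodromyFiltrationOn.functorial hM.on hM'.on π (fun _ _ => trivial)
      (c := 1) one_ne_zero (fun x _ => by rw [one_smul, D.push_N]) s hx
  have hιn : ∀ s x, x ∉ M' s → ι x ∉ M s := by
    intro s x hx hc
    apply hx
    rw [← D.retract x]
    exact hπ s _ hc
  -- powers of an element
  have hpow : ∀ (g : D'.G) (α : Ω) (x : D'.V), x ∈ M' s → D'.op g x - α • x ∈ M' (s - 1) → ∀ a : ℕ,
      D'.op (g ^ a) x - α ^ a • x ∈ M' (s - 1) := by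
    intro g α x hx h a
    induction a with
    | zero => simp [op_one]
    | succ a ih =>
      have e : D'.op (g ^ (a + 1)) x - α ^ (a + 1) • x =
          D'.op g (D'.op (g ^ a) x - α ^ a • x) + α ^ a • (D'.op g x - α • x) := by
        rw [map_sub, map_smul, pow_succ' g, op_mul, Module.End.mul_apply, smul_sub, smul_smul,
          ← pow_succ]
        abel
      rw [e]
      exact Submodule.add_mem _ (hstab g _ _ ih) (Submodule.smul_mem _ _ h)
  -- the case of nonnegative valuation
  have pos : ∀ (g : D'.G), 0 ≤ D'.val g → ∀ (α : Ω) (x : D'.V), x ∈ M' s → x ∉ M' (s - 1) →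
      D'.op g x - α • x ∈ M' (s - 1) → IsAlgebraic ℚ α ∧ ∀ z : ℂ, aeval z (minpoly ℚ α) = 0 →
        ‖z‖ = (p : ℝ) ^ (((m : ℝ) + s) * D'.val g / 2) := by
    intro g hg α x hx hx' hα
    obtain ⟨a, b, ha, hab, hgab⟩ := D.frob g hg
    have h1 := hι _ _ (hpow g α x hx hα a)
    rw [map_sub, map_smul, hgab] at h1
    rcases Nat.eq_zero_or_pos b with hb | hb
    · -- `b = 0`: the eigenvalue is a root of unity
      subst hb
      have hval : D'.val g = 0 := by
        have : (a : ℤ) * D'.val g = 0 := by rw [hab]; simp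
        rcases mul_eq_zero.1 this with h | h
        · omega
        · exact h
      have h2 : (1 - α ^ a) • ι x ∈ M (s - 1) := by
        rw [sub_smul, one_smul]
        simpa using h1
      have h3 : α ^ a = 1 := by
        by_contra hne
        exact hιn _ _ hx' ((Submodule.smul_mem_iff _ (sub_ne_zero.2 (Ne.symm hne))).1 h2)
      have halg : IsAlgebraic ℚ α := IsAlgebraic.of_pow ha (by rw [h3]; exact isAlgebraic_one)
      refine ⟨halg, fun z hz => ?_⟩
      have h4 := aeval_minpoly_pow hz a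
      rw [h3, minpoly.one] at h4
      simp only [map_sub, aeval_X, map_one, sub_eq_zero] at h4
      have h5 : ‖z‖ ^ a = 1 := by rw [← norm_pow, h4, norm_one]
      have h6 : ‖z‖ = 1 := by
        rwa [pow_eq_one_iff_of_nonneg (norm_nonneg z) ha.ne'] at h5
      rw [h6, hval]
      simp
    · obtain ⟨β, hβ, y, hy, hy', hyβ⟩ := exists_root_eigen (S := Y.actV m Y.frob) (Z := M s)
        (B := M (s - 1)) (hMs s) (X ^ b - C (α ^ a)) (Polynomial.X_pow_sub_C_ne_zero hb _) (ι x)
        (hι _ _ hx) (hιn _ _ hx') (by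
          rw [map_sub, map_pow, aeval_X, aeval_C, LinearMap.sub_apply, Module.algebraMap_end_apply]
          exact h1)
      have h2 : β ^ b = α ^ a := by
        have := hβ.eq_zero
        rw [Polynomial.eval_sub, Polynomial.eval_pow, Polynomial.eval_X, Polynomial.eval_C,
          sub_eq_zero] at this
        exact this
      have h3 := (hMw s β y hy hy' hyβ).pow b
      rw [h2] at h3
      refine ⟨h3.1.of_pow ha, fun z hz => ?_⟩
      have h4 := h3.2 _ (aeval_minpoly_pow hz a)
      rw [norm_pow] at h4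
      have haR : (0 : ℝ) < a := Nat.cast_pos.2 ha
      have h5 : ((p : ℝ) ^ (((m : ℝ) + s) * D'.val g / 2)) ^ a =
          (q : ℝ) ^ (((b * (s + m) : ℤ) : ℝ) / 2) := by
        rw [← Real.rpow_natCast, ← Real.rpow_mul hpR.le, hq, Nat.cast_pow, ← Real.rpow_natCast,
          ← Real.rpow_mul hpR.le]
        congr 1
        have h6 : (a : ℝ) * D'.val g = b * f := by exact_mod_cast hab
        push_cast
        linear_combination ((m : ℝ) + s) / 2 * h6
      rw [← h5] at h4
      exact (pow_left_inj₀ (norm_nonneg z) (Real.rpow_nonneg hpR.le _) ha.ne').1 h4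
  refine ⟨fun x hx => hstab g s x hx, fun α x hx hx' hα => ?_⟩
  rcases le_total 0 (D'.val g) with hg | hg
  · exact pos g hg α x hx hx' hα
  · have hginv : ∀ y, D'.op g⁻¹ (D'.op g y) = y := by
      intro y
      rw [← Module.End.mul_apply, ← op_mul, inv_mul_cancel, op_one, Module.End.one_apply]
    have hα0 : α ≠ 0 := by
      rintro rfl
      rw [zero_smul, sub_zero] at hα
      apply hx'
      rw [← hginv x]
      exact hstab _ _ _ hα
    have h1 : D'.op g⁻¹ x - α⁻¹ • x ∈ M' (s - 1) := by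
      have e : D'.op g⁻¹ x - α⁻¹ • x = -(α⁻¹ • D'.op g⁻¹ (D'.op g x - α • x)) := by
        rw [map_sub, hginv, map_smul, smul_sub, smul_smul, inv_mul_cancel₀ hα0, one_smul]
        abel
      rw [e]
      exact Submodule.neg_mem _ (Submodule.smul_mem _ _ (hstab _ _ _ hα))
    obtain ⟨h2, h3⟩ := pos g⁻¹ (by rw [hD.val_inv]; omega) α⁻¹ x hx hx' h1
    refine ⟨by simpa using h2.inv, fun z hz => ?_⟩
    have h4 : aeval z⁻¹ (minpoly ℚ α⁻¹) = 0 := by
      apply aeval_minpoly_inv h2
      rwa [inv_inv]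
    have h5 := h3 _ h4
    rw [norm_inv, hD.val_inv] at h5
    rw [← inv_inv ‖z‖, h5, ← Real.rpow_neg hpR.le]
    congr 1
    push_cast
    ring

end Pool.Agent.H849.PAD
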