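import Pool.Graph.R_pool_sql_team_seeded_63374d34.N184.WM.PDefs

/-!
# Direct summands of sums of Tate twists, for the Weil group: definitions
-/

set_option autoImplicit false

namespace Pool.Agent.H849.PAD

universe u v

open Module Pool.Agent.N184.WM

section Sum

variable {Ω : Type u} [Field Ω] {ι : Type} (H : ι → Type v) [∀ i, AddCommGroup (H i)]
  [∀ i, Module Ω (H i)]

/-- The geometric Frobenius (for the residue field with `q` elements) on the sum of the Tate twists
`(H i)(- t i)`. -/
def sumFrob (q : ℕ) (F : ∀ i, Module.End Ω (H i)) (t : ι → ℤ) : Module.End Ω (∀ i, H i) :=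
  LinearMap.pi fun i => ((q : Ω) ^ t i • F i) ∘ₗ LinearMap.proj i

/-- The monodromy operator on the sum of the `H i`. -/
def sumN (N : ∀ i, Module.End Ω (H i)) : Module.End Ω (∀ i, H i) :=
  LinearMap.pi fun i => N i ∘ₗ LinearMap.proj i

end Sum

/-- Over a finite extension of `K` with residue field of `p ^ f` elements the representation `D.V` is a
direct summand of `V'`, by `pull` and `push`, which commute with the monodromy operators; a power of
every `g` with `val g ≥ 0` acts as a power of the geometric Frobenius `Φ` of the extension. -/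
structure IsWeilSummand {Ω : Type u} [Field Ω] (D : WeilModule.{u, v} Ω) {V' : Type v}
    [AddCommGroup V'] [Module Ω V'] (Φ N' : Module.End Ω V') (f : ℕ) (pull : D.V →ₗ[Ω] V')
    (push : V' →ₗ[Ω] D.V) : Prop where
  retract : ∀ x, push (pull x) = x
  pull_N : ∀ x, pull (D.N x) = N' (pull x)
  push_N : ∀ y, push (N' y) = D.N (push y)
  frob : ∀ g, 0 ≤ D.val g → ActsAsFrobenius D Φ f pull g

end Pool.Agent.H849.PAD
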